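import Mathlib

/-!
# The unit and its inverse in a commutative ring
-/

set_option autoImplicit false

namespace Pool.Agent.L7h63.CU

section

variable {R : Type*} [CommRing R]

theorem pside_aux {g x Q W T1 T2 A1 B1 : R} (e1 : g * Q = Q) (e2 : x * Q = -Q)
    (e3 : Q * Q = -4 * Q) (e4 : Q * T1 ^ 2 = 2 * Q) (e5 : g * W = -W) (e6 : W * W = 8 * x * W)
    (e7 : W * T2 ^ 2 = 2 * W) (e8 : Q * W = 0) (e9 : g * x * x = 1)
    (hAB : A1 + 4 * A1 ^ 2 - 8 * B1 ^ 2 = 0) :
    (x + Q * (2 * A1 + 2 * B1 * T1) + W * (A1 + B1 * T2)) *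
    (g * x + Q * (2 * A1 - 2 * B1 * T1) + -W * (A1 - B1 * T2)) = 1 := by
  linear_combination e9 + (2 * A1 - 2 * B1 * T1) * e2 + x * (2 * A1 + 2 * B1 * T1) * e1 +
    (2 * A1 + 2 * B1 * T1) * e2 + (2 * A1 - 2 * B1 * T1) * (2 * A1 + 2 * B1 * T1) * e3 +
    16 * B1 ^ 2 * e4 - 4 * Q * hAB + x * (A1 + B1 * T2) * e5 -
    (A1 + B1 * T2) * (A1 - B1 * T2) * e6 + 8 * x * B1 ^ 2 * e7 - 2 * x * W * hAB +
    (-(2 * A1 + 2 * B1 * T1) * (A1 - B1 * T2) + (A1 + B1 * T2) * (2 * A1 - 2 * B1 * T1)) * e8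

/-- the component of the trivial character of `c` -/
theorem pside {g x p k d T1 T2 A1 B1 : R} (hg : g ^ 2 = 1) (hx : x ^ 2 = g) (hp : p ^ 2 = 1)
    (hk : k ^ 2 = g) (hd : d ^ 2 = p)
    (hT1 : (1 + g) * (x - 1) * T1 ^ 2 = 2 * ((1 + g) * (x - 1)))
    (hT2 : (1 - g) * T2 ^ 2 = 2 * (1 - g)) (hAB : A1 + 4 * A1 ^ 2 - 8 * B1 ^ 2 = 0) :
    (x + (1 + g) * (x - 1) * (2 * A1 + 2 * B1 * T1) +
      (1 - g) * (2 * x - (1 - p) * d - (1 + p) * k) * (A1 + B1 * T2)) *
    (g * x + (1 + g) * (x - 1) * (2 * A1 - 2 * B1 * T1) +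
      (1 - g) * (2 * (g * x) + (1 - p) * d + (1 + p) * k) * (A1 - B1 * T2)) = 1 := by
  have hW' : (1 - g) * (2 * (g * x) + (1 - p) * d + (1 + p) * k) =
      -((1 - g) * (2 * x - (1 - p) * d - (1 + p) * k)) := by
    linear_combination (-2 * x) * hg
  rw [hW']
  refine pside_aux ?_ ?_ ?_ hT1 ?_ ?_ ?_ ?_ ?_ hAB
  · linear_combination (x - 1) * hg
  · linear_combination (1 + g) * hx + hg
  · linear_combination (1 + g) ^ 2 * hx + (g + 3 - 2 * x) * hg
  · linear_combination (-(2 * x - (1 - p) * d - (1 + p) * k)) * hg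
  · have h1 : (1 - g) * (2 * x - (1 - p) * d - (1 + p) * k) ^ 2 =
        4 * (1 - g) * x * (2 * x - (1 - p) * d - (1 + p) * k) := by
      linear_combination (-4 * (1 - g)) * hx + (1 - g) * (1 - p) ^ 2 * hd +
        (1 - g) * (1 + p) ^ 2 * hk - 2 * (1 - g) * d * k * hp + (1 - g) * (p - 2 + g) * hp -
        (2 * p - 2) * hg
    linear_combination 2 * h1 + (2 * x - (1 - p) * d - (1 + p) * k) ^ 2 * hg
  · linear_combination (2 * x - (1 - p) * d - (1 + p) * k) * hT2
  · linear_combination (-(x - 1) * (2 * x - (1 - p) * d - (1 + p) * k)) * hg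
  · linear_combination g * hx + hg


/-- the relations of the quartic periods -/
structure Per (S D0 D1 N : R) : Prop where
  tf : ∀ (n : ℕ) (r : R), n ≠ 0 → (n : R) * r = 0 → r = 0
  SS : S * S = 257 - N
  NN : N * N = 257 * N
  NS : N * S = 0
  ND0 : N * D0 = 0
  ND1 : N * D1 = 0
  DD : 2 * (D0 * D0) = 257 - N - S
  SD : S * D0 = 16 * D1 - D0

namespace Per

variable {S D0 D1 N : R} (h : Per S D0 D1 N)

include h

theorem SD1 : S * D1 = 16 * D0 + D1 := by
  have h1 := h.tf 16 (S * D1 - (16 * D0 + D1)) (by norm_num) (by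
    push_cast
    linear_combination (-S) * h.SD + D0 * h.SS + h.SD - h.ND0)
  exact sub_eq_zero.1 h1

theorem D01 : D0 * D1 = 8 * S := by
  have h1 := h.tf 32 (D0 * D1 - 8 * S) (by norm_num) (by
    push_cast
    linear_combination (-2 * D0) * h.SD + (S + 1) * h.DD - h.SS - h.NS)
  exact sub_eq_zero.1 h1

theorem D11 : 2 * (D1 * D1) = 257 - N + S := by
  have h1 := h.tf 16 (2 * (D1 * D1) - (257 - N + S)) (by norm_num) (by
    push_cast
    linear_combination (-2 * D1) * h.SD + 2 * D0 * h.SD1 + 16 * h.DD + 4 * h.D01)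
  exact sub_eq_zero.1 h1

/-- `b a'/4 + b' a/4 = 0` -/
theorem odd : (259639 * D0 + 276377 * D1) * (4819 - 393 * S) +
    (-1769 * D0 + 2169 * D1) * (759885 + 47401 * S) = 0 := by
  linear_combination (-393 * 259639 + 47401 * (-1769)) * h.SD +
    (-393 * 276377 + 47401 * 2169) * h.SD1

/-- `b b' + a a' = 1 + c N` -/
theorem even : (259639 * D0 + 276377 * D1) * (-1769 * D0 + 2169 * D1) +
    16 * (759885 + 47401 * S) * (4819 - 393 * S) = 1 + 227977327 * N := by
  have h1 := h.tf 2 ((259639 * D0 + 276377 * D1) * (-1769 * D0 + 2169 * D1) +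
    16 * (759885 + 47401 * S) * (4819 - 393 * S) - (1 + 227977327 * N)) (by norm_num) (by
    push_cast
    linear_combination (-259639 * 1769) * h.DD + (276377 * 2169) * h.D11 +
      2 * (259639 * 2169 - 276377 * 1769) * h.D01 - 32 * (47401 * 393) * h.SS)
  exact sub_eq_zero.1 h1

end Per

theorem nside_aux {S N k g V : R} (hV1 : k * V = -V) (hV2 : g * V = V) (hV3 : V * V = 4 * V)
    (hk : k ^ 2 = g) (hg : g ^ 2 = 1) (hSS : S * S = 257 - N) (hNN : N * N = 257 * N) :
    ((1 - N) * k - 8 * (16 + S) * V) * ((1 - N) * (g * k) + 8 * (S - 16) * V) =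
      1 + 255 * N := by
  linear_combination (1 - N) ^ 2 * g * hk + (1 - N) ^ 2 * hg + 8 * (1 - N) * (S - 16) * hV1 -
    8 * (16 + S) * (1 - N) * k * hV2 - 8 * (16 + S) * (1 - N) * hV1 -
    64 * (16 + S) * (S - 16) * hV3 - 256 * V * hSS + hNN

theorem nside_aux2 {p g k d b b' a a' C : R} (hp : p ^ 2 = 1) (hk : k ^ 2 = g) (hg : g ^ 2 = 1)
    (hd : d ^ 2 = p) (hodd : b * a' + b' * a = 0) (heven : b * b' + 16 * a * a' = C) :
    (1 - p) * ((b * k + 2 * a * ((1 + g) + (1 - g) * d)) *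
      (b' * (g * k) + 2 * a' * ((1 + g) + (1 - g) * (p * d)))) = (1 - p) * C := by
  have u1 : (1 - p) * ((1 + g) + (1 - g) * (p * d)) = (1 - p) * ((1 + g) - (1 - g) * d) := by
    linear_combination (-(1 - g) * d) * hp
  have u2 : g * ((1 + g) + (1 - g) * d) = (1 + g) - (1 - g) * d := by
    linear_combination (1 - d) * hg
  have u3 : ((1 + g) + (1 - g) * d) * ((1 + g) + (1 - g) * (p * d)) = 4 := by
    linear_combination (2 - (p + 1) * d) * hg + (1 - g) ^ 2 * p * hd + (1 - g) ^ 2 * hp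
  generalize (1 + g) + (1 - g) * (p * d) = U' at *
  generalize (1 + g) + (1 - g) * d = U at *
  generalize (1 + g) - (1 - g) * d = U'' at *
  linear_combination (1 - p) * b * b' * (g * hk + hg) + 2 * b * a' * k * u1 +
    2 * b' * a * k * (1 - p) * u2 + 2 * k * (1 - p) * U'' * hodd + 4 * a * a' * (1 - p) * u3 +
    (1 - p) * heven

/-- the elements `L` and `L'` are inverse to each other up to a multiple of `N` -/
theorem nside {S D0 D1 N : R} (h : Per S D0 D1 N) {p g k d Bp Bm Bp' Bm' : R} (hp : p ^ 2 = 1)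
    (hk : k ^ 2 = g) (hg : g ^ 2 = 1) (hd : d ^ 2 = p)
    (h1 : 2 * Bp = 1 - N + (259639 * D0 + 276377 * D1))
    (h2 : 2 * Bm = 1 - N - (259639 * D0 + 276377 * D1))
    (h3 : 2 * Bp' = 1 - N + (-1769 * D0 + 2169 * D1))
    (h4 : 2 * Bm' = 1 - N - (-1769 * D0 + 2169 * D1)) :
    (k * (Bp + Bm * p) - 4 * (16 + S) * (1 + p) * (1 + g) * (1 - k) +
      (759885 + 47401 * S) * (1 - p) * ((1 + g) + (1 - g) * d)) *
    (g * k * (Bp' + Bm' * p) + 4 * (S - 16) * (1 + p) * (1 + g) * (1 - k) +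
      (4819 - 393 * S) * (1 - p) * ((1 + g) + (1 - g) * (p * d))) =
    1 + N * (113988791 - 113988536 * p) := by
  have e1 := nside_aux (V := (1 + g) * (1 - k)) (k := k) (g := g)
    (by linear_combination (-(1 + g)) * hk - hg)
    (by linear_combination (1 - k) * hg)
    (by linear_combination (1 + g) ^ 2 * hk + (g + 3 - 2 * k) * hg) hk hg h.SS h.NN
  have e2 := nside_aux2 hp hk hg hd h.odd h.even
  refine sub_eq_zero.1 (h.tf 4 _ (by norm_num) ?_)
  push_cast
  have l1 : 2 * (k * (Bp + Bm * p) - 4 * (16 + S) * (1 + p) * (1 + g) * (1 - k) +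
      (759885 + 47401 * S) * (1 - p) * ((1 + g) + (1 - g) * d)) =
      (1 + p) * ((1 - N) * k - 8 * (16 + S) * ((1 + g) * (1 - k))) +
      (1 - p) * ((259639 * D0 + 276377 * D1) * k +
        2 * (759885 + 47401 * S) * ((1 + g) + (1 - g) * d)) := by
    linear_combination k * h1 + k * p * h2
  have l2 : 2 * (g * k * (Bp' + Bm' * p) + 4 * (S - 16) * (1 + p) * (1 + g) * (1 - k) +
      (4819 - 393 * S) * (1 - p) * ((1 + g) + (1 - g) * (p * d))) =
      (1 + p) * ((1 - N) * (g * k) + 8 * (S - 16) * ((1 + g) * (1 - k))) +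
      (1 - p) * ((-1769 * D0 + 2169 * D1) * (g * k) +
        2 * (4819 - 393 * S) * ((1 + g) + (1 - g) * (p * d))) := by
    linear_combination g * k * h3 + g * k * p * h4
  generalize k * (Bp + Bm * p) - 4 * (16 + S) * (1 + p) * (1 + g) * (1 - k) +
      (759885 + 47401 * S) * (1 - p) * ((1 + g) + (1 - g) * d) = L at *
  generalize g * k * (Bp' + Bm' * p) + 4 * (S - 16) * (1 + p) * (1 + g) * (1 - k) +
      (4819 - 393 * S) * (1 - p) * ((1 + g) + (1 - g) * (p * d)) = L' at *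
  generalize (1 - N) * k - 8 * (16 + S) * ((1 + g) * (1 - k)) = X at *
  generalize (1 - N) * (g * k) + 8 * (S - 16) * ((1 + g) * (1 - k)) = X' at *
  generalize (259639 * D0 + 276377 * D1) * k +
        2 * (759885 + 47401 * S) * ((1 + g) + (1 - g) * d) = Y at *
  generalize (-1769 * D0 + 2169 * D1) * (g * k) +
        2 * (4819 - 393 * S) * ((1 + g) + (1 - g) * (p * d)) = Y' at *
  linear_combination 2 * L' * l1 + ((1 + p) * X + (1 - p) * Y) * l2 + 2 * (1 + p) * e1 +
    2 * e2 + (X * X' + Y * Y' - X * Y' - X' * Y) * hp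

theorem glue {N L L' M M' l l' R0 : R} (tf : ∀ r : R, 257 * r = 0 → r = 0)
    (hn : L * L' = 1 + N * R0) (hl : N * L = N * l) (hl' : N * L' = N * l')
    (hNN : N * N = 257 * N) (hp : (l + 257 * M) * (l' + 257 * M') = 1) :
    (L + N * M) * (L' + N * M') = 1 := by
  refine sub_eq_zero.1 (tf _ ?_)
  linear_combination (257 - N) * hn + (257 * M' + l') * hl + (257 * M + L) * hl' +
    (257 * M * M' - R0) * hNN + N * hp

end

section defs

/-- the number `(A - 64) / 257` -/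
abbrev cA : ℤ := 764875509743637467584
/-- the number `B / 257` -/
abbrev cB : ℤ := 540848659703243257752

variable {R : Type*} [Ring R]

/-- the part of the unit for the nontrivial characters of `c` -/
def L1 (S p g k d Bp Bm : R) : R :=
  k * (Bp + Bm * p) - 4 * (16 + S) * (1 + p) * (1 + g) * (1 - k) +
      (759885 + 47401 * S) * (1 - p) * ((1 + g) + (1 - g) * d)

/-- the same for the inverse -/
def L2 (S p g k d Bp Bm : R) : R :=
  g * k * (Bp + Bm * p) + 4 * (S - 16) * (1 + p) * (1 + g) * (1 - k) +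
      (4819 - 393 * S) * (1 - p) * ((1 + g) + (1 - g) * (p * d))

/-- the part of the unit for the trivial character of `c` -/
def M1 (p g x k d T1 T2 : R) : R :=
  x + (1 + g) * (x - 1) * (2 * (cA : R) + 2 * (cB : R) * T1) +
      (1 - g) * (2 * x - (1 - p) * d - (1 + p) * k) * ((cA : R) + (cB : R) * T2) -
      2957 * (1 - p) * ((1 + g) + (1 - g) * d)

/-- the same for the inverse -/
def M2 (p g x k d T1 T2 : R) : R :=
  g * x + (1 + g) * (x - 1) * (2 * (cA : R) - 2 * (cB : R) * T1) +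
      (1 - g) * (2 * (g * x) + (1 - p) * d + (1 + p) * k) * ((cA : R) - (cB : R) * T2) -
      19 * (1 - p) * ((1 + g) + (1 - g) * (p * d))

end defs

section

variable {R : Type*} [CommRing R]

theorem unit_comm {S D0 D1 N : R} (h : Per S D0 D1 N) {p g x k d Bp Bm Bp' Bm' T1 T2 : R}
    (hp : p ^ 2 = 1) (hk : k ^ 2 = g) (hg : g ^ 2 = 1) (hx : x ^ 2 = g) (hd : d ^ 2 = p)
    (hT1 : (1 + g) * (x - 1) * T1 ^ 2 = 2 * ((1 + g) * (x - 1)))
    (hT2 : (1 - g) * T2 ^ 2 = 2 * (1 - g))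
    (h1 : 2 * Bp = 1 - N + (259639 * D0 + 276377 * D1))
    (h2 : 2 * Bm = 1 - N - (259639 * D0 + 276377 * D1))
    (h3 : 2 * Bp' = 1 - N + (-1769 * D0 + 2169 * D1))
    (h4 : 2 * Bm' = 1 - N - (-1769 * D0 + 2169 * D1)) :
    (L1 S p g k d Bp Bm + N * M1 p g x k d T1 T2) *
      (L2 S p g k d Bp' Bm' + N * M2 p g x k d T1 T2) = 1 := by
  have q1 : N * Bp = -128 * N := sub_eq_zero.1 (h.tf 2 _ (by norm_num) (by
    push_cast
    linear_combination N * h1 - h.NN + 259639 * h.ND0 + 276377 * h.ND1))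
  have q2 : N * Bm = -128 * N := sub_eq_zero.1 (h.tf 2 _ (by norm_num) (by
    push_cast
    linear_combination N * h2 - h.NN - 259639 * h.ND0 - 276377 * h.ND1))
  have q3 : N * Bp' = -128 * N := sub_eq_zero.1 (h.tf 2 _ (by norm_num) (by
    push_cast
    linear_combination N * h3 - h.NN - 1769 * h.ND0 + 2169 * h.ND1))
  have q4 : N * Bm' = -128 * N := sub_eq_zero.1 (h.tf 2 _ (by norm_num) (by
    push_cast
    linear_combination N * h4 - h.NN + 1769 * h.ND0 - 2169 * h.ND1))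
  refine glue (l := -128 * k * (1 + p) - 64 * (1 + p) * (1 + g) * (1 - k) +
      759885 * (1 - p) * ((1 + g) + (1 - g) * d))
    (l' := -128 * g * k * (1 + p) - 64 * (1 + p) * (1 + g) * (1 - k) +
      4819 * (1 - p) * ((1 + g) + (1 - g) * (p * d)))
    (fun r hr => h.tf 257 r (by norm_num) (by push_cast; exact hr))
    (nside h hp hk hg hd h1 h2 h3 h4) ?_ ?_ h.NN ?_
  · unfold L1
    linear_combination k * q1 + k * p * q2 +
      (-4 * (1 + p) * (1 + g) * (1 - k) + 47401 * (1 - p) * ((1 + g) + (1 - g) * d)) * h.NS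
  · unfold L2
    linear_combination g * k * q3 + g * k * p * q4 +
      (4 * (1 + p) * (1 + g) * (1 - k) - 393 * (1 - p) * ((1 + g) + (1 - g) * (p * d))) * h.NS
  · have hAB : (64 + 257 * (cA : R)) + 4 * (64 + 257 * (cA : R)) ^ 2 - 8 * (257 * (cB : R)) ^ 2 =
        0 := by
      have e : (64 + 257 * cA) + 4 * (64 + 257 * cA) ^ 2 - 8 * (257 * cB) ^ 2 = 0 := by norm_num
      exact_mod_cast congrArg (Int.cast : ℤ → R) e
    unfold M1 M2
    generalize (cA : R) = a at *
    generalize (cB : R) = b at *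
    have hps := pside (T1 := T1) (T2 := T2) hg hx hp hk hd hT1 hT2 hAB
    have r1 : (-128 * k * (1 + p) - 64 * (1 + p) * (1 + g) * (1 - k) +
        759885 * (1 - p) * ((1 + g) + (1 - g) * d)) + 256 * x -
        759949 * ((1 - p) * ((1 + g) + (1 - g) * d)) = 128 * ((1 + g) * (x - 1)) +
          64 * ((1 - g) * (2 * x - (1 - p) * d - (1 + p) * k)) := by ring
    have r2 : (-128 * g * k * (1 + p) - 64 * (1 + p) * (1 + g) * (1 - k) +
        4819 * (1 - p) * ((1 + g) + (1 - g) * (p * d))) + 256 * (g * x) -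
        4883 * ((1 - p) * ((1 + g) + (1 - g) * (p * d))) = 128 * ((1 + g) * (x - 1)) +
          64 * ((1 - g) * (2 * (g * x) + (1 - p) * d + (1 + p) * k)) := by
      linear_combination (128 * x) * hg + (64 * (1 - g) * d) * hp
    clear hT1 hT2 hAB h1 h2 h3 h4 q1 q2 q3 q4 h hk hx hd hp hg
    generalize (-128 * k * (1 + p) - 64 * (1 + p) * (1 + g) * (1 - k) +
        759885 * (1 - p) * ((1 + g) + (1 - g) * d)) = l at *
    generalize (-128 * g * k * (1 + p) - 64 * (1 + p) * (1 + g) * (1 - k) +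
        4819 * (1 - p) * ((1 + g) + (1 - g) * (p * d))) = l' at *
    generalize (1 + g) * (x - 1) = Q at *
    generalize (1 - g) * (2 * x - (1 - p) * d - (1 + p) * k) = W at *
    generalize (1 - g) * (2 * (g * x) + (1 - p) * d + (1 + p) * k) = W' at *
    have v1 : 2957 * (1 - p) * ((1 + g) + (1 - g) * d) =
      2957 * ((1 - p) * ((1 + g) + (1 - g) * d)) := by ring
    have v2 : 19 * (1 - p) * ((1 + g) + (1 - g) * (p * d)) =
      19 * ((1 - p) * ((1 + g) + (1 - g) * (p * d))) := by ring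
    rw [v1, v2]
    generalize (1 - p) * ((1 + g) + (1 - g) * d) = V at *
    generalize (1 - p) * ((1 + g) + (1 - g) * (p * d)) = V' at *
    have w1 : l + 257 * (x + Q * (2 * a + 2 * b * T1) + W * (a + b * T2) - 2957 * V) =
        x + Q * (2 * (64 + 257 * a) + 2 * (257 * b) * T1) + W * (64 + 257 * a + 257 * b * T2) := by
      linear_combination r1
    have w2 : l' + 257 * (g * x + Q * (2 * a - 2 * b * T1) + W' * (a - b * T2) - 19 * V') =
        g * x + Q * (2 * (64 + 257 * a) - 2 * (257 * b) * T1) +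
          W' * (64 + 257 * a - 257 * b * T2) := by
      linear_combination r2
    rw [w1, w2, hps]

end

end Pool.Agent.L7h63.CU
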