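import Mathlib

/-!
# Convolutions of the quartic periods modulo `257`
-/

set_option autoImplicit false

namespace Pool.Agent.L7h63.CU

/-- the table of quartic classes modulo `257` (three bits for each residue) -/
def tbl : ℕ := 1799755106088645845987976068195025886821385566919112562821917113240683832708640445334181716969350729677707140738756525091612432442505881173702527340698680547318661075064788562105156540081875500415155506816913964406121690640327251016
/-- the quartic class (`1, …, 4`) of a residue, and `0` for the residue `0` -/
def cl (n : ℕ) : ℕ := (tbl >>> (3 * n)) % 8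
def fS (c : ℕ) : ℤ := if c = 1 then 1 else if c = 2 then -1 else if c = 3 then 1 else
  if c = 4 then -1 else 0
def fD0 (c : ℕ) : ℤ := if c = 1 then 1 else if c = 3 then -1 else 0
def fD1 (c : ℕ) : ℤ := if c = 2 then 1 else if c = 4 then -1 else 0
def f1 (c : ℕ) : ℤ := if c = 0 then 1 else 0

/-- partial sums of a convolution -/
def cs (f h : ℕ → ℤ) (n : ℕ) : ℕ → ℤ
  | 0 => 0
  | m + 1 => cs f h n m + f (cl m) * h (cl ((257 + n - m) % 257))

/-- check of a convolution -/
def chk (f h r : ℕ → ℤ) : ℕ → Bool
  | 0 => true
  | n + 1 => (cs f h n 257 == r (cl n)) && chk f h r n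

set_option maxRecDepth 100000

theorem chkSS : chk fS fS (fun c => 257 * f1 c - 1) 257 = true := by decide +kernel
theorem chkDD : chk fD0 fD0 (fun c => if c = 0 then 128 else if c = 1 then -1 else
  if c = 2 then 0 else if c = 3 then -1 else 0) 257 = true := by decide +kernel
theorem chkSD : chk fS fD0 (fun c => 16 * fD1 c - fD0 c) 257 = true := by decide +kernel


end Pool.Agent.L7h63.CU
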