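import Pool.Agent.L7h63.CU.Grp
import Pool.Agent.L7h63.CU.Chk

/-!
# Quartic periods modulo `257` in the group ring
-/

set_option autoImplicit false
set_option maxRecDepth 100000

namespace Pool.Agent.L7h63.CU

theorem cs_eq (f h : ℕ → ℤ) (n k : ℕ) :
    cs f h n k = ∑ m ∈ Finset.range k, f (cl m) * h (cl ((257 + n - m) % 257)) := by
  induction k with
  | zero => rfl
  | succ k ih => rw [Finset.sum_range_succ, ← ih]; rfl

theorem chk_spec (f h r : ℕ → ℤ) : ∀ k : ℕ, chk f h r k = true → ∀ n < k,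
    cs f h n 257 = r (cl n)
  | 0, _, n, hn => absurd hn (Nat.not_lt_zero n)
  | k + 1, hk, n, hn => by
    simp only [chk, Bool.and_eq_true, beq_iff_eq] at hk
    rcases Nat.lt_succ_iff_lt_or_eq.mp hn with h1 | h1
    · exact chk_spec f h r k hk.2 n h1
    · rw [h1]; exact hk.1

theorem sub_val (n m : ZMod 257) : (n - m).val = (257 + n.val - m.val) % 257 := by
  have h1 : m.val ≤ 257 + n.val := (ZMod.val_lt m).le.trans (Nat.le_add_right _ _)
  have h2 : n - m = ((257 + n.val - m.val : ℕ) : ZMod 257) := by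
    rw [Nat.cast_sub h1, Nat.cast_add, ZMod.natCast_zmod_val, ZMod.natCast_zmod_val]
    have : ((257 : ℕ) : ZMod 257) = 0 := by decide
    rw [this, zero_add]
  rw [h2, ZMod.val_natCast]

theorem sum_val (G : ℕ → ℤ) : ∑ m : ZMod 257, G m.val = ∑ m ∈ Finset.range 257, G m :=
  Fin.sum_univ_eq_sum_range G 257

theorem conv_eq {f h r : ℕ → ℤ} (hc : chk f h r 257 = true) (n : ZMod 257) :
    ∑ m : ZMod 257, f (cl m.val) * h (cl (n - m).val) = r (cl n.val) := by
  have h1 := chk_spec f h r 257 hc n.val (ZMod.val_lt n)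
  rw [cs_eq] at h1
  rw [← h1, ← sum_val (fun m => f (cl m) * h (cl ((257 + n.val - m) % 257)))]
  refine Finset.sum_congr rfl fun m _ => ?_
  rw [sub_val]

/-- the group ring -/
abbrev A := MonoidAlgebra ℤ Gp

/-- the embedding of the group -/
noncomputable abbrev o : Gp →* A := MonoidAlgebra.of ℤ Gp

/-- the element `∑ f(class of n) c ^ n` -/
noncomputable def F (f : ℕ → ℤ) : A := ∑ n : ZMod 257, f (cl n.val) • o (cc n)

theorem F_add (f h : ℕ → ℤ) : F (fun c => f c + h c) = F f + F h := by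
  simp only [F, add_smul, Finset.sum_add_distrib]

theorem F_smul (a : ℤ) (f : ℕ → ℤ) : F (fun c => a * f c) = a • F f := by
  simp only [F, mul_smul, Finset.smul_sum]

theorem F_sub (f h : ℕ → ℤ) : F (fun c => f c - h c) = F f - F h := by
  simp only [F, sub_smul, Finset.sum_sub_distrib]

theorem cl_zero : ∀ n : ZMod 257, cl n.val = 0 ↔ n = 0 := by decide +kernel

theorem F_one : F f1 = 1 := by
  unfold F f1
  have : ∀ n : ZMod 257, (if cl n.val = 0 then (1 : ℤ) else 0) • o (cc n) =
      if n = 0 then (1 : A) else 0 := by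
    intro n
    by_cases h : n = 0
    · rw [if_pos h, if_pos ((cl_zero n).2 h), h, cc_zero, map_one, one_smul]
    · rw [if_neg h, if_neg (fun h' => h ((cl_zero n).1 h')), zero_smul]
  rw [Finset.sum_congr rfl fun n _ => this n, Finset.sum_ite_eq']
  simp

theorem F_mul {f h r : ℕ → ℤ} (hc : chk f h r 257 = true) : F f * F h = F r := by
  unfold F
  rw [Finset.sum_mul_sum]
  have h1 : ∀ a : ZMod 257, ∑ b : ZMod 257, (f (cl a.val) • o (cc a)) * (h (cl b.val) • o (cc b)) =
      ∑ n : ZMod 257, (f (cl a.val) * h (cl (n - a).val)) • o (cc n) := by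
    intro a
    refine (Fintype.sum_equiv (Equiv.addLeft a) _ _ fun b => ?_)
    rw [Equiv.coe_addLeft, add_sub_cancel_left, smul_mul_smul_comm, ← map_mul, cc_mul]
  rw [Finset.sum_congr rfl fun a _ => h1 a, Finset.sum_comm]
  refine Finset.sum_congr rfl fun n _ => ?_
  rw [← Finset.sum_smul, conv_eq hc]

/-- the sum of all `c ^ n` -/
noncomputable def N : A := ∑ n : ZMod 257, o (cc n)

theorem F_N : F (fun _ => 1) = N := by
  simp only [F, one_smul, N]

theorem N_cc (m : ZMod 257) : N * o (cc m) = N := by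
  unfold N
  rw [Finset.sum_mul]
  refine (Fintype.sum_equiv (Equiv.addRight m) _ _ fun b => ?_)
  rw [Equiv.coe_addRight, ← map_mul, cc_mul]

theorem cc_N (m : ZMod 257) : o (cc m) * N = N := by
  unfold N
  rw [Finset.mul_sum]
  refine (Fintype.sum_equiv (Equiv.addLeft m) _ _ fun b => ?_)
  rw [Equiv.coe_addLeft, ← map_mul, cc_mul]

theorem N_F (f : ℕ → ℤ) : N * F f = (∑ m ∈ Finset.range 257, f (cl m)) • N := by
  unfold F
  rw [Finset.mul_sum, ← sum_val (fun m => f (cl m)), Finset.sum_smul]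
  refine Finset.sum_congr rfl fun n _ => ?_
  rw [mul_smul_comm, N_cc]

/-- the elements `√257`, `D₀`, `D₁` -/
noncomputable def S : A := F fS
noncomputable def D0 : A := F fD0
noncomputable def D1 : A := F fD1

theorem NS : N * S = 0 := by
  unfold S
  rw [N_F]
  have : ∑ m ∈ Finset.range 257, fS (cl m) = 0 := by decide +kernel
  rw [this, zero_smul]

theorem ND0 : N * D0 = 0 := by
  unfold D0
  rw [N_F]
  have : ∑ m ∈ Finset.range 257, fD0 (cl m) = 0 := by decide +kernel
  rw [this, zero_smul]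

theorem ND1 : N * D1 = 0 := by
  unfold D1
  rw [N_F]
  have : ∑ m ∈ Finset.range 257, fD1 (cl m) = 0 := by decide +kernel
  rw [this, zero_smul]

theorem NN : N * N = 257 * N := by
  have h : N * N = ∑ n : ZMod 257, o (cc n) * N := by
    rw [← Finset.sum_mul]
    rfl
  rw [h, Finset.sum_congr rfl fun n _ => cc_N n, Finset.sum_const, Finset.card_univ, ZMod.card]
  simp

theorem cl_le : ∀ n : ZMod 257, cl n.val ≤ 4 := by decide +kernel

theorem F_congr {f h : ℕ → ℤ} (H : ∀ c ≤ 4, f c = h c) : F f = F h := by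
  unfold F
  exact Finset.sum_congr rfl fun n _ => by rw [H _ (cl_le n)]

theorem SS : S * S = 257 - N := by
  unfold S
  rw [F_mul chkSS, F_sub (fun c => 257 * f1 c) (fun _ => 1), F_smul, F_one, F_N]
  simp

theorem DD : 2 * (D0 * D0) = 257 - N - S := by
  unfold D0
  have h2 : ∀ x : A, 2 * x = (2 : ℤ) • x := fun x => by simp
  rw [F_mul chkDD, h2, ← F_smul, F_congr (h := fun c => 257 * f1 c - 1 - fS c)
    (by decide), F_sub (fun c => 257 * f1 c - 1) fS, F_sub (fun c => 257 * f1 c) (fun _ => 1),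
    F_smul, F_one, F_N]
  simp [S]

theorem SD : S * D0 = 16 * D1 - D0 := by
  unfold S D0 D1
  rw [F_mul chkSD, F_sub (fun c => 16 * fD1 c) fD0, F_smul]
  simp

/-- the lifts of `(1 + b) / 2` for an element `b` of the quartic field -/
theorem F_half (p q : ℤ) : 2 * F (fun c => if c = 1 then p else if c = 3 then -1 - p else
    if c = 2 then q else if c = 4 then -1 - q else 0) =
    1 - N + (2 * p + 1) * D0 + (2 * q + 1) * D1 := by
  have h2 : ∀ x : A, 2 * x = (2 : ℤ) • x := fun x => by simp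
  rw [h2, ← F_smul, F_congr (h := fun c => (f1 c - 1) + ((2 * p + 1) * fD0 c + (2 * q + 1) * fD1 c))]
  · rw [F_add (fun c => f1 c - 1) (fun c => (2 * p + 1) * fD0 c + (2 * q + 1) * fD1 c),
      F_sub f1 (fun _ => 1), F_add (fun c => (2 * p + 1) * fD0 c) (fun c => (2 * q + 1) * fD1 c),
      F_smul, F_smul, F_one, F_N]
    simp [D0, D1, add_assoc]
  · intro c hc
    interval_cases c <;> simp [f1, fD0, fD1] <;> ring

end Pool.Agent.L7h63.CU
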