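import Pool.Agent.L7h63.CU.Conv
import Pool.Agent.L7h63.CU.Alg

/-!
# The unit in the group ring
-/

set_option autoImplicit false
set_option maxRecDepth 100000

namespace Pool.Agent.L7h63.CU

/-- conjugation by `h` -/
noncomputable def conjR (h : Gp) : A →ₐ[ℤ] A :=
  MonoidAlgebra.lift ℤ A Gp ((MonoidAlgebra.of ℤ Gp).comp (MulAut.conj h).toMonoidHom)

theorem conjR_of (h a : Gp) : conjR h (o a) = o (h * a * h⁻¹) := by
  unfold conjR
  rw [MonoidAlgebra.lift_of]
  rfl

theorem conjR_spec (h : Gp) (y : A) : conjR h y * o h = o h * y := by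
  induction y using MonoidAlgebra.induction_on with
  | of a =>
    change conjR h (o a) * o h = o h * o a
    rw [conjR_of, ← map_mul, ← map_mul, inv_mul_cancel_right]
  | add a b ha hb => rw [map_add, add_mul, mul_add, ha, hb]
  | smul r a ha => rw [map_smul, smul_mul_assoc, mul_smul_comm, ha]

/-- the elements fixed by the conjugation by `h` commute with `h` -/
theorem comm_of_conjR {h : Gp} {y : A} (H : conjR h y = y) : o h * y = y * o h := by
  rw [← conjR_spec, H]

theorem tf (n : ℕ) (r : A) (hn : n ≠ 0) (h : (n : A) * r = 0) : r = 0 := by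
  rw [← nsmul_eq_mul] at h
  exact (smul_eq_zero.1 h).resolve_left hn

theorem conjR_F {h : Gp} {a : ZMod 257} {s : ℕ → ℕ} (ha : a ≠ 0)
    (H : ∀ n, h * cc n * h⁻¹ = cc (a * n)) (hs : ∀ n : ZMod 257, cl n.val = s (cl (a * n).val))
    (f : ℕ → ℤ) : conjR h (F f) = F (fun c => f (s c)) := by
  have : Fact (Nat.Prime 257) := ⟨by norm_num⟩
  unfold F
  rw [map_sum]
  refine Fintype.sum_equiv (Equiv.mulLeft₀ a ha) _ _ fun n => ?_
  change _ = (f (s (cl (a * n).val))) • o (cc (a * n))
  rw [map_smul, conjR_of, H, ← hs]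

/-- the permutation of the classes caused by multiplication by `9` -/
def sw (c : ℕ) : ℕ := if c = 1 then 3 else if c = 3 then 1 else if c = 2 then 4 else
  if c = 4 then 2 else c

theorem cl_t : ∀ n : ZMod 257, cl n.val = sw (cl (ac 1 0 * n).val) := by decide +kernel

theorem cl_k : ∀ n : ZMod 257, cl n.val = cl (ac 0 1 * n).val := by decide +kernel

theorem cl_16 : ∀ n : ZMod 257, cl n.val = cl (ac 16 0 * n).val := by decide +kernel

theorem conj_t (f : ℕ → ℤ) : conjR (tt 1) (F f) = F (fun c => f (sw c)) :=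
  conjR_F (by decide) (fun n => by rw [tt_cc, mul_inv_cancel_right]) cl_t f

theorem conj_k (f : ℕ → ℤ) : conjR (kk 1) (F f) = F f :=
  conjR_F (s := fun c => c) (by decide) (fun n => by rw [kk_cc, mul_inv_cancel_right]) cl_k f

theorem conj_16 (f : ℕ → ℤ) : conjR (tt 16) (F f) = F f :=
  conjR_F (s := fun c => c) (by decide) (fun n => by rw [tt_cc, mul_inv_cancel_right]) cl_16 f

theorem conj_of_comm {h : Gp} (H : ∀ n, h * cc n = cc n * h) (f : ℕ → ℤ) :
    conjR h (F f) = F f :=
  conjR_F (a := 1) (s := fun c => c) (by decide)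
    (fun n => by rw [H, mul_inv_cancel_right, one_mul]) (fun n => by rw [one_mul]) f

theorem conj_cc (m : ZMod 257) (f : ℕ → ℤ) : conjR (cc m) (F f) = F f :=
  conj_of_comm (fun n => by rw [cc_mul, cc_mul, add_comm]) f

theorem conj_kz (f : ℕ → ℤ) : conjR kz (F f) = F f := conj_of_comm kz_cc f

theorem conj_dd (b : ZMod 4) (f : ℕ → ℤ) : conjR (dd b) (F f) = F f :=
  conj_of_comm (fun _ => dd_comm b _) f

theorem F_comm (f h : ℕ → ℤ) : F f * F h = F h * F f := by
  unfold F
  rw [Finset.sum_mul_sum, Finset.sum_mul_sum, Finset.sum_comm]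
  refine Finset.sum_congr rfl fun a _ => Finset.sum_congr rfl fun b _ => ?_
  rw [smul_mul_smul_comm, smul_mul_smul_comm, ← map_mul, ← map_mul, cc_mul, cc_mul, add_comm,
    mul_comm]

/-- the three commuting elements of the group -/
def gen3 : Set Gp := {kz, dd 1, tt 16}

theorem gen3_F {z : Gp} (hz : z ∈ gen3) (f : ℕ → ℤ) : o z * F f = F f * o z := by
  rcases hz with rfl | rfl | hz
  · exact comm_of_conjR (conj_kz f)
  · exact comm_of_conjR (conj_dd 1 f)
  · rw [Set.mem_singleton_iff.1 hz]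
    exact comm_of_conjR (conj_16 f)

theorem par16 : par 16 = 0 := by decide

theorem kz_tt16 : kz * tt 16 = tt 16 * kz := by
  rw [kz_eq, mul_assoc, tt_kk 16 1 par16, ← mul_assoc, ← mul_assoc, tt_mul, tt_mul, add_comm]

theorem gen3_comm {z w : Gp} (hz : z ∈ gen3) (hw : w ∈ gen3) : o z * o w = o w * o z := by
  rw [← map_mul, ← map_mul]
  congr 1
  rcases hz with rfl | rfl | hz
  · rcases hw with rfl | rfl | hw
    · rfl
    · exact (dd_comm _ _).symm
    · rw [Set.mem_singleton_iff.1 hw]; exact kz_tt16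
  · exact dd_comm _ _
  · rw [Set.mem_singleton_iff.1 hz]
    rcases hw with rfl | rfl | hw
    · exact kz_tt16.symm
    · exact (dd_comm _ _).symm
    · rw [Set.mem_singleton_iff.1 hw]

/-- the generators of a commutative subring -/
def sgen : Set A := Set.range F ∪ {y | ∃ z ∈ gen3, y = o z}

theorem sgen_comm : ∀ a ∈ sgen, ∀ b ∈ sgen, a * b = b * a := by
  rintro a (⟨f, rfl⟩ | ⟨z, hz, rfl⟩) b (⟨h, rfl⟩ | ⟨w, hw, rfl⟩)
  · exact F_comm f h
  · exact (gen3_F hw f).symm
  · exact gen3_F hz h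
  · exact gen3_comm hz hw

/-- the commutative subring -/
def R : Type := Algebra.adjoin ℤ sgen

noncomputable instance : Ring R := inferInstanceAs (Ring (Algebra.adjoin ℤ sgen))

theorem R_comm : ∀ a b : R, a * b = b * a :=
  (Algebra.isMulCommutative_adjoin ℤ sgen_comm).is_comm.comm

noncomputable instance : CommRing R := { (inferInstance : Ring R) with mul_comm := R_comm }

/-- the inclusion -/
noncomputable def val : R →+* A where
  toFun := Subtype.val
  map_one' := rfl
  map_mul' _ _ := rfl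
  map_zero' := rfl
  map_add' _ _ := rfl

theorem val_inj : Function.Injective val := Subtype.val_injective

noncomputable def rF (f : ℕ → ℤ) : R := ⟨F f, Algebra.subset_adjoin (Or.inl ⟨f, rfl⟩)⟩

noncomputable def ro (z : Gp) (hz : z ∈ gen3) : R :=
  ⟨o z, Algebra.subset_adjoin (Or.inr ⟨z, hz, rfl⟩)⟩

theorem val_rF (f : ℕ → ℤ) : val (rF f) = F f := rfl

theorem val_ro (z : Gp) (hz : z ∈ gen3) : val (ro z hz) = o z := rfl

theorem tt_pow (i : ZMod 256) (n : ℕ) : tt i ^ n = tt (n * i) := by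
  induction n with
  | zero => simp [tt]; rfl
  | succ n ih => rw [pow_succ, ih, tt_mul]; push_cast; congr 1; ring

theorem dd_pow (i : ZMod 4) (n : ℕ) : dd i ^ n = dd (n * i) := by
  induction n with
  | zero => simp [dd]; rfl
  | succ n ih => rw [pow_succ, ih, dd_mul]; push_cast; congr 1; ring

/-- the functions giving the lifts of `(1 + b) / 2` -/
def hf (p q : ℤ) : ℕ → ℤ := fun c => if c = 1 then p else if c = 3 then -1 - p else
    if c = 2 then q else if c = 4 then -1 - q else 0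

/-- the generators inside the commutative subring -/
noncomputable def rS : R := rF fS
noncomputable def rD0 : R := rF fD0
noncomputable def rD1 : R := rF fD1
noncomputable def rN : R := rF (fun _ => 1)
noncomputable def rBp : R := rF (hf 129819 138188)
noncomputable def rBm : R := rF (hf (-129820) (-138189))
noncomputable def rCp : R := rF (hf (-885) 1084)
noncomputable def rCm : R := rF (hf 884 (-1085))
noncomputable def rk : R := ro kz (Or.inl rfl)
noncomputable def rd : R := ro (dd 1) (Or.inr (Or.inl rfl))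
noncomputable def rZ : R := ro (tt 16) (Or.inr (Or.inr rfl))
noncomputable def rp : R := rd ^ 2
noncomputable def rg : R := rZ ^ 8
noncomputable def rx : R := rZ ^ 4
noncomputable def rT1 : R := rZ + rZ ^ 15
noncomputable def rT2 : R := rZ ^ 2 + rZ ^ 14

theorem val_rS : val rS = S := rfl
theorem val_rD0 : val rD0 = D0 := rfl
theorem val_rD1 : val rD1 = D1 := rfl
theorem val_rN : val rN = N := F_N
theorem val_rk : val rk = o kz := rfl
theorem val_rd : val rd = o (dd 1) := rfl
theorem val_rZ : val rZ = o (tt 16) := rfl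
theorem val_rp : val rp = o (dd 2) := by
  unfold rp; rw [map_pow, val_rd, ← map_pow, dd_pow]; congr 2
theorem val_Zpow (n : ℕ) : val (rZ ^ n) = o (tt (n * 16)) := by
  rw [map_pow, val_rZ, ← map_pow, tt_pow]
theorem val_rg : val rg = o (tt 128) := by
  unfold rg; rw [val_Zpow]; congr 2
theorem val_rx : val rx = o (tt 64) := by
  unfold rx; rw [val_Zpow]; congr 2

theorem per : Per rS rD0 rD1 rN where
  tf n r hn h := val_inj (by
    rw [map_zero]
    refine tf n (val r) hn ?_
    rw [← map_natCast val, ← map_mul, h, map_zero])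
  SS := val_inj (by
    rw [map_mul, map_sub, map_ofNat, val_rS, val_rN]; exact SS)
  NN := val_inj (by
    rw [map_mul, map_mul, map_ofNat, val_rN]; exact NN)
  NS := val_inj (by
    rw [map_mul, map_zero, val_rS, val_rN]; exact NS)
  ND0 := val_inj (by
    rw [map_mul, map_zero, val_rD0, val_rN]; exact ND0)
  ND1 := val_inj (by
    rw [map_mul, map_zero, val_rD1, val_rN]; exact ND1)
  DD := val_inj (by
    rw [map_mul, map_mul, map_sub, map_sub, map_ofNat, map_ofNat, val_rD0, val_rN, val_rS]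
    exact DD)
  SD := val_inj (by
    rw [map_mul, map_sub, map_mul, map_ofNat, val_rD0, val_rD1, val_rS]
    exact SD)

theorem half (p q : ℤ) : 2 * rF (hf p q) = 1 - rN + (2 * (p : R) + 1) * rD0 +
    (2 * (q : R) + 1) * rD1 := val_inj (by
  simp only [map_mul, map_add, map_sub, map_ofNat, map_one, map_intCast, val_rN, val_rD0,
    val_rD1, val_rF]
  exact F_half p q)

theorem hp : rp ^ 2 = 1 := val_inj (by
  rw [map_pow, val_rp, map_one, ← map_pow, dd_pow, ← map_one o]; congr 2)

theorem hg : rg ^ 2 = 1 := val_inj (by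
  rw [map_pow, val_rg, map_one, ← map_pow, tt_pow, ← map_one o]; congr 2)

theorem hx : rx ^ 2 = rg := by
  unfold rx rg; ring

theorem hk : rk ^ 2 = rg := val_inj (by
  rw [map_pow, val_rg, val_rk, ← map_pow, sq, kz_sq])

theorem hd : rd ^ 2 = rp := rfl

theorem hT1 : (1 + rg) * (rx - 1) * rT1 ^ 2 = 2 * ((1 + rg) * (rx - 1)) := by
  have h := hg
  unfold rg at h
  unfold rg rx rT1
  linear_combination ((1 + rZ ^ 8) * (rZ ^ 4 - 1) * (2 + rZ ^ 14) + (1 + rZ ^ 8) * rZ ^ 2 -
    rZ ^ 6) * h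

theorem hT2 : (1 - rg) * rT2 ^ 2 = 2 * (1 - rg) := by
  have h := hg
  unfold rg at h
  unfold rg rT2
  linear_combination ((1 - rZ ^ 8) * (rZ ^ 12 + 2) - rZ ^ 4) * h

theorem hBp : 2 * rBp = 1 - rN + (259639 * rD0 + 276377 * rD1) := by
  unfold rBp
  rw [half]
  push_cast
  ring

theorem hBm : 2 * rBm = 1 - rN - (259639 * rD0 + 276377 * rD1) := by
  unfold rBm
  rw [half]
  push_cast
  ring

theorem hCp : 2 * rCp = 1 - rN + (-1769 * rD0 + 2169 * rD1) := by
  unfold rCp
  rw [half]
  push_cast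
  ring

theorem hCm : 2 * rCm = 1 - rN - (-1769 * rD0 + 2169 * rD1) := by
  unfold rCm
  rw [half]
  push_cast
  ring

/-- the unit in the commutative subring -/
noncomputable def rU : R := L1 rS rp rg rk rd rBp rBm + rN * M1 rp rg rx rk rd rT1 rT2

/-- its inverse -/
noncomputable def rV : R := L2 rS rp rg rk rd rCp rCm + rN * M2 rp rg rx rk rd rT1 rT2

theorem rU_rV : rU * rV = 1 :=
  unit_comm per hp hk hg hx hd hT1 hT2 hBp hBm hCp hCm

section maps

variable {R₁ R₂ : Type*} [Ring R₁] [Ring R₂] (φ : R₁ →+* R₂)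

theorem map_L1 (S p g k d Bp Bm : R₁) :
    φ (L1 S p g k d Bp Bm) = L1 (φ S) (φ p) (φ g) (φ k) (φ d) (φ Bp) (φ Bm) := by
  simp only [L1, map_mul, map_add, map_sub, map_one, map_ofNat]

theorem map_M1 (p g x k d T1 T2 : R₁) :
    φ (M1 p g x k d T1 T2) = M1 (φ p) (φ g) (φ x) (φ k) (φ d) (φ T1) (φ T2) := by
  simp only [M1, map_mul, map_add, map_sub, map_one, map_ofNat, map_intCast]

end maps

/-! ### the identities behind centrality and the involution -/

section ident

variable {T : Type*} [CommRing T] {S N p g x k d Bp Bm T1 T2 : T}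

theorem L1_t (hp : p ^ 2 = 1) : L1 S p g (k * p) d Bm Bp = L1 S p g k d Bp Bm := by
  unfold L1
  linear_combination (k * Bp - 4 * (16 + S) * (1 + g) * (-k)) * hp

theorem M1_t (hp : p ^ 2 = 1) : M1 p g x (k * p) d T1 T2 = M1 p g x k d T1 T2 := by
  have e : (1 + p) * (k * p) = (1 + p) * k := by linear_combination k * hp
  unfold M1
  rw [e]

theorem L1_s (hp : p ^ 2 = 1) (hg : g ^ 2 = 1) :
    L1 S p g (g * k) (p * d) Bp Bm = g * L1 S p g k d Bp Bm := by
  have e1 : (1 + g) * (1 - g * k) = g * ((1 + g) * (1 - k)) := by linear_combination (-1) * hg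
  have e2 : (1 - p) * ((1 + g) + (1 - g) * (p * d)) =
      g * ((1 - p) * ((1 + g) + (1 - g) * d)) := by
    linear_combination (-(1 - g) * d) * hp + (-(1 - p) + (1 - p) * d) * hg
  have e3 : L1 S p g (g * k) (p * d) Bp Bm = g * k * (Bp + Bm * p) -
      4 * (16 + S) * (1 + p) * ((1 + g) * (1 - g * k)) +
      (759885 + 47401 * S) * ((1 - p) * ((1 + g) + (1 - g) * (p * d))) := by
    unfold L1; ring
  rw [e3, e1, e2]
  unfold L1
  ring

theorem M1_s (hp : p ^ 2 = 1) (hg : g ^ 2 = 1) :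
    M1 p g (g * x) (g * k) (p * d) T1 T2 = g * M1 p g x k d T1 T2 := by
  have e1 : (1 + g) * (g * x - 1) = g * ((1 + g) * (x - 1)) := by linear_combination hg
  have e2 : (1 - p) * ((1 + g) + (1 - g) * (p * d)) =
      g * ((1 - p) * ((1 + g) + (1 - g) * d)) := by
    linear_combination (-(1 - g) * d) * hp + (-(1 - p) + (1 - p) * d) * hg
  have e4 : (1 - g) * (2 * (g * x) - (1 - p) * (p * d) - (1 + p) * (g * k)) =
      g * ((1 - g) * (2 * x - (1 - p) * d - (1 + p) * k)) := by
    linear_combination (1 - g) * d * hp + (-(1 - p) * d) * hg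
  have e3 : M1 p g (g * x) (g * k) (p * d) T1 T2 = g * x + (1 + g) * (g * x - 1) *
      (2 * (cA : T) + 2 * (cB : T) * T1) + (1 - g) * (2 * (g * x) - (1 - p) * (p * d) -
        (1 + p) * (g * k)) * ((cA : T) + (cB : T) * T2) -
        2957 * ((1 - p) * ((1 + g) + (1 - g) * (p * d))) := by
    unfold M1
    rw [mul_assoc 2957]
  rw [e3, e1, e2, e4]
  unfold M1
  generalize (cA : T) = a
  generalize (cB : T) = b
  generalize 2 * x - (1 - p) * d - (1 + p) * k = W
  ring

end ident

/-! ### centrality -/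

/-- the unit in the group ring -/
noncomputable def U : A := val rU

theorem U_eq_t : L1 rS rp rg (rk * rp) rd rBm rBp + rN * M1 rp rg rx (rk * rp) rd rT1 rT2 = rU := by
  rw [L1_t hp, M1_t hp]; rfl

theorem ext_hom {φ ψ : R →+* A} (hS : φ rS = ψ rS) (hN : φ rN = ψ rN) (h1 : φ rBp = ψ rBp)
    (h2 : φ rBm = ψ rBm) (h3 : φ rk = ψ rk) (h4 : φ rd = ψ rd) (h5 : φ rZ = ψ rZ) :
    φ rU = ψ rU := by
  simp only [rU, map_add, map_mul, map_L1, map_M1, rp, rg, rx, rT1, rT2, map_pow, hS, hN, h1, h2,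
    h3, h4, h5]

/-- conjugation as a map from the commutative subring -/
noncomputable def cj (h : Gp) : R →+* A := (conjR h).toRingHom.comp val

theorem cj_rF (h : Gp) (f : ℕ → ℤ) : cj h (rF f) = conjR h (F f) := rfl

theorem cj_ro (h z : Gp) (hz : z ∈ gen3) : cj h (ro z hz) = o (h * z * h⁻¹) := conjR_of h z

theorem cj_rk (h : Gp) : cj h rk = o (h * kz * h⁻¹) := cj_ro h _ _

theorem cj_rd (h : Gp) : cj h rd = o (dd 1) := by
  have e : cj h rd = o (h * dd 1 * h⁻¹) := cj_ro h _ _
  rw [e, ← dd_comm, mul_inv_cancel_right]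

theorem cj_rZ (h : Gp) : cj h rZ = o (h * tt 16 * h⁻¹) := cj_ro h _ _

theorem cj_U (h : Gp) : cj h rU = conjR h U := rfl

theorem comm_k : o (kk 1) * U = U * o (kk 1) := by
  refine comm_of_conjR ?_
  rw [← cj_U]
  unfold U
  refine ext_hom ?_ ?_ ?_ ?_ ?_ ?_ ?_
  · unfold rS; rw [cj_rF, conj_k, val_rF]
  · unfold rN; rw [cj_rF, conj_k, val_rF]
  · unfold rBp; rw [cj_rF, conj_k, val_rF]
  · unfold rBm; rw [cj_rF, conj_k, val_rF]
  · have e : kk 1 * kz * (kk 1)⁻¹ = kz := by
      rw [kz_eq, ← mul_assoc, tt_kk 64 1 (by decide), mul_inv_cancel_right]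
    rw [cj_rk, val_rk, e]
  · rw [cj_rd, val_rd]
  · rw [cj_rZ, val_rZ, tt_kk 16 1 (by decide), mul_inv_cancel_right]

theorem sw_hf (p q : ℤ) : F (fun c => hf p q (sw c)) = F (hf (-1 - p) (-1 - q)) :=
  F_congr (fun c hc => by interval_cases c <;> simp [hf, sw])

theorem t_kz : tt 1 * kz * (tt 1)⁻¹ = kz * dd 2 := by
  have h : dbl (par 1) = 2 := by decide
  rw [tt_kz, h, mul_assoc kz, ← dd_comm, ← mul_assoc, mul_inv_cancel_right]

theorem comm_t : o (tt 1) * U = U * o (tt 1) := by
  refine comm_of_conjR ?_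
  rw [← cj_U]
  unfold U
  have hS : cj (tt 1) rS = val rS := by
    unfold rS; rw [cj_rF, conj_t, val_rF]
    exact F_congr (fun c hc => by interval_cases c <;> rfl)
  have hN : cj (tt 1) rN = val rN := by
    unfold rN; rw [cj_rF, conj_t, val_rF]
  have h1 : cj (tt 1) rBp = val rBm := by
    unfold rBp rBm; rw [cj_rF, conj_t, val_rF, sw_hf]; norm_num
  have h2 : cj (tt 1) rBm = val rBp := by
    unfold rBp rBm; rw [cj_rF, conj_t, val_rF, sw_hf]; norm_num
  have h3 : cj (tt 1) rk = val (rk * rp) := by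
    rw [map_mul, val_rp, val_rk, cj_rk, t_kz, map_mul]
  have h4 : cj (tt 1) rd = val rd := by rw [cj_rd, val_rd]
  have h5 : cj (tt 1) rZ = val rZ := by
    rw [cj_rZ, val_rZ, tt_mul, add_comm, ← tt_mul, mul_inv_cancel_right]
  have h6 : cj (tt 1) rU = val (L1 rS rp rg (rk * rp) rd rBm rBp +
      rN * M1 rp rg rx (rk * rp) rd rT1 rT2) := by
    simp only [rU, map_add, map_mul, map_L1, map_M1, rp, rg, rx, rT1, rT2, map_pow, hS, hN, h1,
      h2, h3, h4, h5]
  rw [U_eq_t] at h6
  exact h6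

theorem N_cc_mul (y : A) (m : ZMod 257) : N * y * o (cc m) = N * y := by
  induction y using MonoidAlgebra.induction_on with
  | of a =>
    change N * o a * o (cc m) = N * o a
    have h : a * cc m = cc (ac a.i a.j * m) * a := by
      ext <;> simp [cc, mul_n, mul_i, mul_b, mul_j, par_zero, dbl_zero, ac_zero, add_comm]
    rw [mul_assoc, ← map_mul, h, map_mul, ← mul_assoc, N_cc]
  | add a b ha hb => rw [mul_add, add_mul, ha, hb]
  | smul r a ha => rw [mul_smul_comm, smul_mul_assoc, ha]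

theorem comm_c (m : ZMod 257) : o (cc m) * U = U * o (cc m) := by
  have hU : U = val (L1 rS rp (rk ^ 2) rk rd rBp rBm) + N * val (M1 rp rg rx rk rd rT1 rT2) := by
    rw [hk, ← val_rN, ← map_mul, ← map_add]; rfl
  rw [hU, mul_add, add_mul, N_cc_mul, ← mul_assoc, cc_N]
  congr 1
  refine comm_of_conjR ?_
  change cj (cc m) (L1 rS rp (rk ^ 2) rk rd rBp rBm) = val (L1 rS rp (rk ^ 2) rk rd rBp rBm)
  have hS : cj (cc m) rS = val rS := by
    unfold rS; rw [cj_rF, conj_cc, val_rF]
  have h1 : cj (cc m) rBp = val rBp := by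
    unfold rBp; rw [cj_rF, conj_cc, val_rF]
  have h2 : cj (cc m) rBm = val rBm := by
    unfold rBm; rw [cj_rF, conj_cc, val_rF]
  have h3 : cj (cc m) rk = val rk := by
    rw [val_rk, cj_rk, ← kz_cc, mul_inv_cancel_right]
  have h4 : cj (cc m) rd = val rd := by rw [cj_rd, val_rd]
  simp only [map_L1, rp, map_pow, hS, h1, h2, h3, h4]

theorem comm_dd (b : ZMod 4) (y : A) : o (dd b) * y = y * o (dd b) := by
  induction y using MonoidAlgebra.induction_on with
  | of a =>
    change o (dd b) * o a = o a * o (dd b)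
    rw [← map_mul, ← map_mul, dd_comm]
  | add a b ha hb => rw [mul_add, add_mul, ha, hb]
  | smul r a ha => rw [mul_smul_comm, smul_mul_assoc, ha]

theorem tt_eq (i : ZMod 256) : tt i = tt 1 ^ i.val := by
  rw [tt_pow, mul_one, ZMod.natCast_zmod_val]

theorem kk_eq (j : ZMod 2) : kk j = kk 1 ^ j.val := by
  fin_cases j
  · exact (pow_zero (kk 1)).symm
  · exact (pow_one (kk 1)).symm

theorem comm_all (x : A) : x * U = U * x := by
  induction x using MonoidAlgebra.induction_on with
  | of a =>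
    change Commute (o a) U
    rw [eq_prod a, map_mul, map_mul, map_mul, tt_eq, kk_eq, map_pow, map_pow]
    have h1 : Commute (o (cc a.n)) U := comm_c _
    have h2 : Commute (o (tt 1)) U := comm_t
    have h3 : Commute (o (dd a.b)) U := comm_dd _ _
    have h4 : Commute (o (kk 1)) U := comm_k
    exact ((h1.mul_left (h2.pow_left _)).mul_left h3).mul_left (h4.pow_left _)
  | add a b ha hb => rw [mul_add, add_mul, ha, hb]
  | smul r a ha => rw [mul_smul_comm, smul_mul_assoc, ha]

/-- the inverse in the group ring -/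
noncomputable def V : A := val rV

theorem UV : U * V = 1 := by
  unfold U V
  rw [← map_mul, rU_rV, map_one]

theorem VU : V * U = 1 := by
  unfold U V
  rw [← map_mul, mul_comm, rU_rV, map_one]

/-- the central unit -/
noncomputable def theUnit : Aˣ := ⟨U, V, UV, VU⟩

theorem kz_inv : kz⁻¹ = tt 128 * kz := by
  have h : (128 : ZMod 256) + 128 = 0 := by decide
  rw [inv_eq_iff_eq_inv, eq_comm, inv_eq_iff_mul_eq_one, mul_assoc, kz_sq, tt_mul, h]; rfl

/-! ### the involution -/

section invol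

variable (φ : A →ₗ[ℤ] A) (hφ : ∀ g : Gp, φ (o g) = o g⁻¹)

include hφ

theorem phi_mul (x y : A) : φ (x * y) = φ y * φ x := by
  induction x using MonoidAlgebra.induction_on with
  | of a =>
    change φ (o a * y) = φ y * φ (o a)
    induction y using MonoidAlgebra.induction_on with
    | of b =>
      change φ (o a * o b) = φ (o b) * φ (o a)
      rw [← map_mul, hφ, hφ, hφ, ← map_mul, mul_inv_rev]
    | add b c hb hc => rw [mul_add, map_add, map_add, add_mul, hb, hc]
    | smul r b hb => rw [mul_smul_comm, map_smul, map_smul, smul_mul_assoc, hb]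
  | add a b ha hb => rw [add_mul, map_add, map_add, mul_add, ha, hb]
  | smul r b hb => rw [smul_mul_assoc, map_smul, map_smul, mul_smul_comm, hb]

theorem phi_one : φ 1 = 1 := by
  rw [← map_one o, hφ, inv_one]

theorem phi_F (f : ℕ → ℤ) : φ (F f) = F f := by
  have h : ∀ n : ZMod 257, cl n.val = cl (-n).val := by decide +kernel
  unfold F
  rw [map_sum]
  refine Fintype.sum_equiv (Equiv.neg (ZMod 257)) _ _ fun n => ?_
  rw [map_smul, hφ, cc_inv, Equiv.neg_apply, ← h]

/-- the restriction of the involution to the commutative subring -/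
noncomputable def sR : R →+* A where
  toFun r := φ (val r)
  map_one' := by rw [map_one, phi_one φ hφ]
  map_mul' x y := by rw [mul_comm, map_mul, phi_mul φ hφ]
  map_zero' := by rw [map_zero, map_zero]
  map_add' x y := by rw [map_add, map_add]

theorem sR_rF (f : ℕ → ℤ) : sR φ hφ (rF f) = F f := phi_F φ hφ f

theorem sR_rk : sR φ hφ rk = o kz⁻¹ := hφ kz

theorem sR_rd : sR φ hφ rd = o (dd 1)⁻¹ := hφ (dd 1)

theorem sR_rZ : sR φ hφ rZ = o (tt 16)⁻¹ := hφ (tt 16)

theorem phi_U : φ U = o (tt 128) * U := by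
  have hS : sR φ hφ rS = val rS := by unfold rS; rw [sR_rF, val_rF]
  have hN : sR φ hφ rN = val rN := by unfold rN; rw [sR_rF, val_rF]
  have h1 : sR φ hφ rBp = val rBp := by unfold rBp; rw [sR_rF, val_rF]
  have h2 : sR φ hφ rBm = val rBm := by unfold rBm; rw [sR_rF, val_rF]
  have h3 : sR φ hφ rk = val (rg * rk) := by
    rw [map_mul, val_rg, val_rk, ← map_mul, ← kz_inv, sR_rk]
  have h4 : sR φ hφ rd = val (rd ^ 3) := by
    rw [map_pow, val_rd, ← map_pow, dd_pow, sR_rd, dd_inv]; congr 2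
  have h5 : sR φ hφ rZ = val (rZ ^ 15) := by
    rw [val_Zpow, sR_rZ, tt_inv]; congr 2
  have hZ : rZ ^ 16 = 1 := by
    have h := hg
    unfold rg at h
    rw [← h]; ring
  have e1 : (rd ^ 3) ^ 2 = rp := by
    have h := hp
    unfold rp at h ⊢
    linear_combination rd ^ 2 * h
  have e2 : (rZ ^ 15) ^ 8 = rg := by
    unfold rg
    calc (rZ ^ 15) ^ 8 = (rZ ^ 16) ^ 7 * rZ ^ 8 := by ring
      _ = _ := by rw [hZ, one_pow, one_mul]
  have e3 : (rZ ^ 15) ^ 4 = rg * rx := by
    unfold rg rx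
    calc (rZ ^ 15) ^ 4 = (rZ ^ 16) ^ 3 * (rZ ^ 8 * rZ ^ 4) := by ring
      _ = _ := by rw [hZ, one_pow, one_mul]
  have e4 : rZ ^ 15 + (rZ ^ 15) ^ 15 = rT1 := by
    unfold rT1
    calc rZ ^ 15 + (rZ ^ 15) ^ 15 = (rZ ^ 16) ^ 14 * rZ + rZ ^ 15 := by ring
      _ = _ := by rw [hZ, one_pow, one_mul]
  have e5 : (rZ ^ 15) ^ 2 + (rZ ^ 15) ^ 14 = rT2 := by
    unfold rT2
    calc (rZ ^ 15) ^ 2 + (rZ ^ 15) ^ 14 = (rZ ^ 16) ^ 13 * rZ ^ 2 + (rZ ^ 16) * rZ ^ 14 := by ring
      _ = _ := by rw [hZ, one_pow, one_mul, one_mul]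
  have e6 : rp * rd = rd ^ 3 := by unfold rp; ring
  have g1 : sR φ hφ rp = val rp := by
    have e : sR φ hφ rp = val ((rd ^ 3) ^ 2) := by
      unfold rp
      rw [map_pow, h4, ← map_pow]
    rw [e, e1]
  have g2 : sR φ hφ rg = val rg := by
    have e : sR φ hφ rg = val ((rZ ^ 15) ^ 8) := by
      unfold rg
      rw [map_pow, h5, ← map_pow]
    rw [e, e2]
  have g3 : sR φ hφ rx = val (rg * rx) := by
    have e : sR φ hφ rx = val ((rZ ^ 15) ^ 4) := by
      unfold rx
      rw [map_pow, h5, ← map_pow]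
    rw [e, e3]
  have g4 : sR φ hφ rT1 = val rT1 := by
    have e : sR φ hφ rT1 = val (rZ ^ 15 + (rZ ^ 15) ^ 15) := by
      unfold rT1
      rw [map_add, map_pow, h5, ← map_pow, ← map_add]
    rw [e, e4]
  have g5 : sR φ hφ rT2 = val rT2 := by
    have e : sR φ hφ rT2 = val ((rZ ^ 15) ^ 2 + (rZ ^ 15) ^ 14) := by
      unfold rT2
      rw [map_add, map_pow, map_pow, h5, ← map_pow, ← map_pow, ← map_add]
    rw [e, e5]
  have g6 : sR φ hφ rd = val (rp * rd) := by rw [h4, e6]
  have h6 : sR φ hφ rU = val (L1 rS rp rg (rg * rk) (rp * rd) rBp rBm +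
      rN * M1 rp rg (rg * rx) (rg * rk) (rp * rd) rT1 rT2) := by
    simp only [rU, map_add, map_mul, map_L1, map_M1, hS, hN, h1, h2, h3, g1, g2, g3, g4, g5, g6]
  rw [L1_s hp hg, M1_s hp hg] at h6
  have h7 : rg * L1 rS rp rg rk rd rBp rBm + rN * (rg * M1 rp rg rx rk rd rT1 rT2) = rg * rU := by
    unfold rU; ring
  rw [h7, map_mul, val_rg] at h6
  exact h6

end invol

/-- the homomorphism `g ↦ g⁻¹` to the opposite ring -/
noncomputable def opHom : Gp →* Aᵐᵒᵖ where
  toFun g := MulOpposite.op (o g⁻¹)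
  map_one' := by rw [inv_one, map_one, MulOpposite.op_one]
  map_mul' a b := by rw [mul_inv_rev, map_mul, MulOpposite.op_mul]

/-- the involution -/
noncomputable def invol : A →ₗ[ℤ] A :=
  (MulOpposite.opLinearEquiv ℤ).symm.toLinearMap ∘ₗ (MonoidAlgebra.lift ℤ Aᵐᵒᵖ Gp opHom).toLinearMap

theorem invol_of (g : Gp) : invol (o g) = o g⁻¹ := by
  change MulOpposite.unop (MonoidAlgebra.lift ℤ Aᵐᵒᵖ Gp opHom (o g)) = _
  rw [MonoidAlgebra.lift_of]
  rfl

theorem main (g : Gp) (hg : g ∈ Subgroup.center Gp) (v : Aˣ)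
    (hv : invol (v : A) = (v : A)) (hu : U = o g * (v : A)) : False := by
  refine not_sq g hg ?_
  have h1 := phi_U invol invol_of
  rw [hu, phi_mul invol invol_of, hv, invol_of] at h1
  have h2 : (v : A) * o g⁻¹ = o g⁻¹ * (v : A) := by
    have h3 : ∀ y : A, o g * y = y * o g := by
      intro y
      induction y using MonoidAlgebra.induction_on with
      | of a =>
        change o g * o a = o a * o g
        rw [← map_mul, ← map_mul, Subgroup.mem_center_iff.1 hg]
      | add a b ha hb => rw [mul_add, add_mul, ha, hb]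
      | smul r a ha => rw [mul_smul_comm, smul_mul_assoc, ha]
    have h4 : o g * o g⁻¹ = 1 := by rw [← map_mul, mul_inv_cancel, map_one]
    have h5 : o g⁻¹ * o g = 1 := by rw [← map_mul, inv_mul_cancel, map_one]
    calc (v : A) * o g⁻¹ = (o g⁻¹ * o g) * ((v : A) * o g⁻¹) := by rw [h5, one_mul]
      _ = o g⁻¹ * ((o g * (v : A)) * o g⁻¹) := by simp only [mul_assoc]
      _ = o g⁻¹ * (v : A) * (o g * o g⁻¹) := by rw [h3 (v : A)]; simp only [mul_assoc]
      _ = _ := by rw [h4, mul_one]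
  rw [h2, ← mul_assoc, Units.mul_left_inj, ← map_mul] at h1
  have h6 := MonoidAlgebra.of_injective h1
  have h7 : tt 128 * g * g = 1 := by rw [← h6, inv_mul_cancel]
  have h8 : tt 128 * tt 128 = 1 := by rw [tt_mul]; rfl
  rw [mul_assoc] at h7
  calc g * g = (tt 128 * tt 128) * (g * g) := by rw [h8, one_mul]
    _ = tt 128 := by rw [mul_assoc, h7, mul_one]

end Pool.Agent.L7h63.CU
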