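import Mathlib

/-!
# The group `C₂₅₇ ⋊ P` with `P` of order `2048`

Elements `c ^ n t ^ i d ^ b k₁ ^ j`, where `c ^ 257 = t ^ 256 = d ^ 4 = k₁ ^ 2 = 1`, `t c t⁻¹ = c ^ 9`,
`k₁ c k₁⁻¹ = c⁻¹`, `k₁ t = t d² k₁` and `d` is central.
-/

set_option autoImplicit false

namespace Pool.Agent.L7h63.CU

/-- the elements `c ^ n t ^ i d ^ b k₁ ^ j` -/
@[ext]
structure Gp where
  n : ZMod 257
  i : ZMod 256
  b : ZMod 4
  j : ZMod 2

/-- the action of `t ^ i k₁ ^ j` on `c` -/
def ac (i : ZMod 256) (j : ZMod 2) : ZMod 257 := 9 ^ i.val * (-1) ^ j.val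

/-- parity of the exponent of `t` -/
def par (i : ZMod 256) : ZMod 2 := ZMod.castHom (by norm_num : 2 ∣ 256) (ZMod 2) i

/-- doubling `ZMod 2 → ZMod 4` -/
def dbl (x : ZMod 2) : ZMod 4 := if x = 0 then 0 else 2

theorem pow9 : (9 : ZMod 257) ^ 256 = 1 := by
  have : (9 : ZMod 257) ^ 256 = (9 ^ 16) ^ 16 := by rw [← pow_mul]
  rw [this]
  decide

theorem pow_mod9 (n : ℕ) : (9 : ZMod 257) ^ (n % 256) = 9 ^ n := by
  conv_rhs => rw [← Nat.div_add_mod n 256, pow_add, pow_mul, pow9, one_pow, one_mul]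

theorem pow_mod1 (n : ℕ) : (-1 : ZMod 257) ^ (n % 2) = (-1) ^ n := by
  conv_rhs => rw [← Nat.div_add_mod n 2, pow_add, pow_mul, neg_one_sq, one_pow, one_mul]

theorem ac_add (i i' : ZMod 256) (j j' : ZMod 2) : ac (i + i') (j + j') = ac i j * ac i' j' := by
  unfold ac
  rw [ZMod.val_add, ZMod.val_add, pow_mod9, pow_mod1, pow_add, pow_add]
  ring

theorem ac_zero : ac 0 0 = 1 := by
  simp [ac]

theorem par_add (i i' : ZMod 256) : par (i + i') = par i + par i' := map_add _ _ _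

theorem par_zero : par 0 = 0 := map_zero _

theorem dbl_add (x y : ZMod 2) : dbl (x + y) = dbl x + dbl y := by
  revert x y; decide

theorem dbl_zero : dbl 0 = 0 := rfl

instance : Mul Gp := ⟨fun a b =>
  ⟨a.n + ac a.i a.j * b.n, a.i + b.i, a.b + b.b + dbl (a.j * par b.i), a.j + b.j⟩⟩

instance : One Gp := ⟨⟨0, 0, 0, 0⟩⟩

instance : Inv Gp := ⟨fun a => ⟨-(ac (-a.i) (-a.j) * a.n), -a.i, -a.b - dbl (-a.j * par a.i), -a.j⟩⟩

theorem mul_n (a b : Gp) : (a * b).n = a.n + ac a.i a.j * b.n := rfl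
theorem mul_i (a b : Gp) : (a * b).i = a.i + b.i := rfl
theorem mul_b (a b : Gp) : (a * b).b = a.b + b.b + dbl (a.j * par b.i) := rfl
theorem mul_j (a b : Gp) : (a * b).j = a.j + b.j := rfl
theorem one_n : (1 : Gp).n = 0 := rfl
theorem one_i : (1 : Gp).i = 0 := rfl
theorem one_b : (1 : Gp).b = 0 := rfl
theorem one_j : (1 : Gp).j = 0 := rfl
theorem inv_n (a : Gp) : (a⁻¹).n = -(ac (-a.i) (-a.j) * a.n) := rfl
theorem inv_i (a : Gp) : (a⁻¹).i = -a.i := rfl
theorem inv_b (a : Gp) : (a⁻¹).b = -a.b - dbl (-a.j * par a.i) := rfl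
theorem inv_j (a : Gp) : (a⁻¹).j = -a.j := rfl

instance : Group Gp := Group.ofLeftAxioms
  (fun a b c => by
    ext
    · simp only [mul_n, mul_i, mul_j, ac_add]; ring
    · simp only [mul_i]; ring
    · simp only [mul_b, mul_i, mul_j, par_add, add_mul, mul_add, dbl_add]; ring
    · simp only [mul_j]; ring)
  (fun a => by
    ext
    · simp only [mul_n, one_n, one_i, one_j, ac_zero]; ring
    · simp only [mul_i, one_i]; ring
    · simp only [mul_b, one_b, one_j, zero_mul, dbl_zero]; ring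
    · simp only [mul_j, one_j]; ring)
  (fun a => by
    ext
    · simp only [mul_n, inv_n, inv_i, inv_j, one_n]; ring
    · simp only [mul_i, inv_i, one_i]; ring
    · simp only [mul_b, inv_b, inv_j, one_b]; ring
    · simp only [mul_j, inv_j, one_j]; ring)

instance : Finite Gp := Finite.of_injective
  (fun x : Gp => ((x.n, x.i, x.b, x.j) : ZMod 257 × ZMod 256 × ZMod 4 × ZMod 2))
  (fun x y h => by
    simp only [Prod.mk.injEq] at h
    ext
    · exact h.1
    · exact h.2.1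
    · exact h.2.2.1
    · exact h.2.2.2)

/-- the elements `c ^ n` -/
def cc (n : ZMod 257) : Gp := ⟨n, 0, 0, 0⟩
/-- the elements `t ^ i` -/
def tt (i : ZMod 256) : Gp := ⟨0, i, 0, 0⟩
/-- the elements `d ^ b` -/
def dd (b : ZMod 4) : Gp := ⟨0, 0, b, 0⟩
/-- the elements `k₁ ^ j` -/
def kk (j : ZMod 2) : Gp := ⟨0, 0, 0, j⟩
/-- the element `k = t ^ 64 k₁` -/
def kz : Gp := ⟨0, 64, 0, 1⟩

theorem cc_mul (m n : ZMod 257) : cc m * cc n = cc (m + n) := by
  ext <;> simp [cc, mul_n, mul_i, mul_b, mul_j, ac_zero, par_zero, dbl_zero]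

theorem cc_zero : cc 0 = 1 := rfl

theorem tt_mul (m n : ZMod 256) : tt m * tt n = tt (m + n) := by
  ext <;> simp [tt, mul_n, mul_i, mul_b, mul_j, dbl_zero]

theorem dd_mul (m n : ZMod 4) : dd m * dd n = dd (m + n) := by
  ext <;> simp [dd, mul_n, mul_i, mul_b, mul_j, par_zero, dbl_zero]

theorem kk_mul (m n : ZMod 2) : kk m * kk n = kk (m + n) := by
  ext <;> simp [kk, mul_n, mul_i, mul_b, mul_j, par_zero, dbl_zero]

theorem eq_prod (a : Gp) : a = cc a.n * tt a.i * dd a.b * kk a.j := by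
  ext <;> simp [cc, tt, dd, kk, mul_n, mul_i, mul_b, mul_j, ac_zero, par_zero, dbl_zero]

/-- `t ^ i` for even `i` commutes with `k₁` and `d` -/
theorem tt_kk (i : ZMod 256) (j : ZMod 2) (h : par i = 0) : kk j * tt i = tt i * kk j := by
  ext <;> simp [tt, kk, mul_n, mul_i, mul_b, mul_j, par_zero, dbl_zero, h]

theorem dd_comm (b : ZMod 4) (a : Gp) : dd b * a = a * dd b := by
  ext <;> simp [dd, mul_n, mul_i, mul_b, mul_j, par_zero, dbl_zero, ac_zero, add_comm]

theorem ac_tau (m : ℕ) (hm : m < 256) : ac (m : ZMod 256) 0 = 9 ^ m := by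
  unfold ac
  rw [ZMod.val_natCast, Nat.mod_eq_of_lt hm]
  simp

theorem kz_cc (n : ZMod 257) : kz * cc n = cc n * kz := by
  have h : ac 64 1 = 1 := by decide
  ext <;> simp [kz, cc, mul_n, mul_i, mul_b, mul_j, par_zero, dbl_zero, ac_zero, h]

theorem kz_sq : kz * kz = tt 128 := by
  have h : ac 64 1 = 1 := by decide
  ext
  · simp [kz, tt, mul_n, h]
  · simp only [kz, tt, mul_i]; decide
  · simp only [kz, tt, mul_b]; decide
  · simp only [kz, tt, mul_j]; decide

theorem tt_kz (i : ZMod 256) : tt i * kz = kz * tt i * dd (dbl (par i)) := by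
  have h : ∀ x : ZMod 2, dbl x + dbl x = 0 := by decide
  ext <;> simp [tt, kz, dd, mul_n, mul_i, mul_b, mul_j, par_zero, dbl_zero, add_comm, h]

theorem tt_cc (i : ZMod 256) (n : ZMod 257) : tt i * cc n = cc (ac i 0 * n) * tt i := by
  ext <;> simp [tt, cc, mul_n, mul_i, mul_b, mul_j, par_zero, dbl_zero, ac_zero]

theorem kk_cc (j : ZMod 2) (n : ZMod 257) : kk j * cc n = cc (ac 0 j * n) * kk j := by
  ext <;> simp [kk, cc, mul_n, mul_i, mul_b, mul_j, par_zero, dbl_zero, ac_zero]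

theorem kz_eq : kz = tt 64 * kk 1 := by
  ext <;> simp [kz, tt, kk, mul_n, mul_i, mul_b, mul_j, par_zero, dbl_zero, ac_zero]

theorem tt_inv (i : ZMod 256) : (tt i)⁻¹ = tt (-i) := by
  rw [inv_eq_iff_mul_eq_one, tt_mul, add_neg_cancel]; rfl

theorem dd_inv (b : ZMod 4) : (dd b)⁻¹ = dd (-b) := by
  rw [inv_eq_iff_mul_eq_one, dd_mul, add_neg_cancel]; rfl

theorem cc_inv (b : ZMod 257) : (cc b)⁻¹ = cc (-b) := by
  rw [inv_eq_iff_mul_eq_one, cc_mul, add_neg_cancel]; rfl

theorem center_i : ∀ i : ZMod 256, (9 : ZMod 257) ^ i.val = 1 → i + i = 0 := by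
  decide +kernel

/-- `t ^ 128` is not the inverse of the square of a central element -/
theorem not_sq (z : Gp) (hz : z ∈ Subgroup.center Gp) : z * z ≠ tt 128 := by
  intro h
  rw [Subgroup.mem_center_iff] at hz
  have h1 := congrArg Gp.n (hz (cc 1))
  have h2 := congrArg Gp.b (hz (tt 1))
  simp only [mul_n, mul_b, cc, tt, ac_zero, par_zero, mul_zero, dbl_zero, zero_mul, one_mul,
    mul_one, add_zero, zero_add] at h1 h2
  have hj : z.j = 0 := by
    have h3 : par 1 = 1 := by decide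
    rw [h3, mul_one] at h2
    have h4 : dbl z.j = 0 := by
      have := h2.symm
      simpa using this
    revert h4
    generalize z.j = j
    revert j
    decide
  have h5 : ac z.i z.j = 1 := by
    have := h1.symm
    rw [add_comm] at this
    exact add_right_cancel this
  rw [hj] at h5
  unfold ac at h5
  rw [ZMod.val_zero, pow_zero, mul_one] at h5
  have h6 := center_i _ h5
  have h7 := congrArg Gp.i h
  rw [mul_i, h6] at h7
  simp only [tt] at h7
  exact absurd h7 (by decide)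

end Pool.Agent.L7h63.CU
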